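import Pool.Agent.V11309.KRec.Final

/-!
Sharp upper bound on the mean of the `n`th `k`th record value from symmetric parents, in units of
the standard deviation, for all `k ≥ 2`, `n ≥ 1` (MP_d11fee, Q1).
-/

namespace Pool.Agent.Results.MP_d11fee_pr.Symmetric

open V11309.KRec

/-- `α` is the point where the greatest convex minorant leaves: `1/2 < α < 1`, `s(α) > 0` and
`(1 - α) s(α) = ∫_α^1 s`, with `s(x) = f(x) - f(1 - x)`. -/
def IsAlpha (k n : ℕ) (α : ℝ) : Prop :=
  1 / 2 < α ∧ α < 1 ∧ 0 < sfun k n α ∧ (1 - α) * sfun k n α = ∫ x in α..1, sfun k n x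

/-- `D^s(k, n)`: the supremum of `(E_F R - μ_F) / σ_F` over the symmetric class. -/
noncomputable def Ds (k n : ℕ) : ℝ := sSup (ratios k n)

/-- Determination of `D^s(k, n)` for all `k ≥ 2` and `n ≥ 1`. -/
theorem result (k n : ℕ) (hk : 2 ≤ k) (hn : 1 ≤ n) :
    (ratios k n).Nonempty ∧ BddAbove (ratios k n) ∧
    (∑ j ∈ Finset.range (n + 1), ((k : ℝ) * Real.log 2) ^ j / (j.factorial : ℝ) ≤ 2 ^ (k - 1) →
      Ds k n = 0) ∧
    (2 ^ (k - 1) < ∑ j ∈ Finset.range (n + 1), ((k : ℝ) * Real.log 2) ^ j / (j.factorial : ℝ) →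
      (∃! α, IsAlpha k n α) ∧ ∀ α, IsAlpha k n α →
        0 < Ds k n ∧
        2 * Ds k n ^ 2 = (∫ x in (1 / 2)..α, sfun k n x ^ 2) + (1 - α) * sfun k n α ^ 2) := by
  obtain ⟨M, rfl⟩ : ∃ M, k = M + 2 := ⟨k - 2, by omega⟩
  obtain ⟨N, rfl⟩ : ∃ N, n = N + 1 := ⟨n - 1, by omega⟩
  have hp : (0 : ℝ) < 2 ^ (M + 1) := by positivity
  have hint := integral_sfun N M
  have hne : (ratios (M + 2) (N + 1)).Nonempty := by
    obtain ⟨ν, h1, h2, h3, h4⟩ := realize (g := fun u => 2 * u - 1) (f := fun u => u)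
      (by fun_prop) (fun u _ v _ h => by simp only; linarith) (fun u _ => by ring)
      (by fun_prop) (by
        rw [← MeasureTheory.integral_Ioc_eq_integral_Ioo,
          ← intervalIntegral.integral_of_le (by norm_num)]
        have := intervalIntegral.integral_comp_mul_sub (a := 1 / 2) (b := 1)
          (fun x : ℝ => x ^ 2) (c := 2) (by norm_num) 1
        rw [this]
        norm_num)
    exact ⟨_, ν, h1, rfl⟩
  have hcont := continuousOn_sfun N M
  have hcont2 : ContinuousOn (sfun (M + 2) (N + 1)) (Set.Icc (1 / 2) 1) :=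
    hcont.mono (Set.Icc_subset_Icc (by norm_num) le_rfl)
  rcases le_or_gt (∑ j ∈ Finset.range (N + 1 + 1),
      (((M + 2 : ℕ) : ℝ) * Real.log 2) ^ j / (j.factorial : ℝ)) (2 ^ (M + 2 - 1)) with h | h
  · have h' := h
    rw [show M + 2 - 1 = M + 1 by omega] at h'
    have hlub := lub_zero N M (by
      rw [hint, sub_nonpos, div_le_one hp]
      exact h')
    refine ⟨hne, hlub.bddAbove, fun _ => hlub.csSup_eq hne, fun h2 => ?_⟩
    exact absurd h (not_le.mpr h2)
  · have h' := h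
    rw [show M + 2 - 1 = M + 1 by omega] at h'
    have hpos : 0 < ∫ x in (1 / 2)..1, sfun (M + 2) (N + 1) x := by
      rw [hint, sub_pos, one_lt_div hp]
      exact h'
    obtain ⟨α, hα⟩ := alpha_exists hcont2 (sfun_half N M) (sfun_one N M) (shape N M) hpos
    have huniq : ∀ β, IsAlpha (M + 2) (N + 1) β → β = α := fun β hβ =>
      alpha_unique hcont2 (sfun_one N M) (shape N M) hβ hα
    have hlub := lub_pos N M hα
    refine ⟨hne, hlub.bddAbove, fun h2 => absurd h2 (not_le.mpr h), fun _ =>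
      ⟨⟨α, hα, huniq⟩, ?_⟩⟩
    intro β hβ
    rw [huniq β hβ]
    have hval : Ds (M + 2) (N + 1) = _ := hlub.csSup_eq hne
    have hQ : 0 < (∫ x in (1 / 2)..α, sfun (M + 2) (N + 1) x ^ 2) +
        (1 - α) * sfun (M + 2) (N + 1) α ^ 2 := by
      have h5 : 0 ≤ ∫ x in (1 / 2)..α, sfun (M + 2) (N + 1) x ^ 2 :=
        intervalIntegral.integral_nonneg hα.1.le fun x _ => sq_nonneg _
      have h6 : 0 < (1 - α) * sfun (M + 2) (N + 1) α ^ 2 := by
        have h7 : 0 < 1 - α := by linarith [hα.2.1]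
        have h8 := hα.2.2.1
        positivity
      linarith
    rw [hval]
    refine ⟨Real.sqrt_pos.mpr (by positivity), ?_⟩
    rw [Real.sq_sqrt (by positivity)]
    ring

end Pool.Agent.Results.MP_d11fee_pr.Symmetric
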